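import Pool.Agent.P.MP_7e1ced_an.Main

set_option autoImplicit false

theorem Pool.Agent.Results.MP_7e1ced_an.Analytic.result :
    Pool.Agent.P.MP_7e1ced_an.numClasses MeasureTheory.AnalyticSet = Cardinal.continuum :=
  Pool.Agent.P.MP_7e1ced_an.main.1
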