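import Pool.Agent.P.MP_7e1ced_an.Main

set_option autoImplicit false

theorem Pool.Agent.Results.MP_7e1ced_an.Borel.result :
    Pool.Agent.P.MP_7e1ced_an.numClasses
      (fun s => @MeasurableSet _ (borel (ℕ → Bool)) s) = Cardinal.continuum :=
  Pool.Agent.P.MP_7e1ced_an.main.2
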